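import Pool.Agent.L0h94.SP.StmB
import Pool.Agent.H437R2.Man.MWSel

/-!
# Project SP: classes with even valuations
-/

set_option autoImplicit false
set_option linter.all false

open Polynomial IsDedekindDomain NumberField
open scoped Classical nonZeroDivisors

namespace Pool.Agent.L0h88.SP

open Pool.Agent.N874.PP (Ev)
open Pool.Agent.H437R2.Man
open Pool.Agent.L0h94.SP

section base
variable {K : Type} [Field K] [NumberField K]

/-- the exponent of a prime in an ideal -/
noncomputable def cnt (v : HeightOneSpectrum (𝓞 K)) (I : Ideal (𝓞 K)) : ℕ :=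
  (UniqueFactorizationMonoid.normalizedFactors I).count v.asIdeal

lemma cnt_mul (v : HeightOneSpectrum (𝓞 K)) {I J : Ideal (𝓞 K)} (hI : I ≠ 0) (hJ : J ≠ 0) :
    cnt v (I * J) = cnt v I + cnt v J := by
  unfold cnt
  rw [UniqueFactorizationMonoid.normalizedFactors_mul hI hJ, Multiset.count_add]

lemma cnt_one (v : HeightOneSpectrum (𝓞 K)) : cnt v (1 : Ideal (𝓞 K)) = 0 := by
  unfold cnt
  rw [UniqueFactorizationMonoid.normalizedFactors_one]
  simp

lemma cnt_pow (v : HeightOneSpectrum (𝓞 K)) (I : Ideal (𝓞 K)) (n : ℕ) :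
    cnt v (I ^ n) = n * cnt v I := by
  unfold cnt
  rw [UniqueFactorizationMonoid.normalizedFactors_pow, Multiset.count_nsmul]

lemma cnt_self (v w : HeightOneSpectrum (𝓞 K)) :
    cnt v w.asIdeal = if v = w then 1 else 0 := by
  unfold cnt
  rw [UniqueFactorizationMonoid.normalizedFactors_irreducible w.irreducible, normalize_eq,
    Multiset.count_singleton]
  by_cases h : v = w
  · simp [h]
  · rw [if_neg h, if_neg]
    intro h1
    exact h (HeightOneSpectrum.ext h1)

lemma cnt_prod (v : HeightOneSpectrum (𝓞 K)) (E : Finset (HeightOneSpectrum (𝓞 K))) :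
    cnt v (∏ w ∈ E, w.asIdeal) = if v ∈ E then 1 else 0 := by
  induction E using Finset.induction_on with
  | empty =>
    rw [Finset.prod_empty, cnt_one]
    simp
  | insert a s ha ih =>
    rw [Finset.prod_insert ha, cnt_mul v a.ne_bot
      (Finset.prod_ne_zero_iff.mpr fun w _ => w.ne_bot), ih, cnt_self]
    by_cases h1 : v = a
    · subst h1
      simp [ha]
    · simp [h1]

lemma ev_u (v : HeightOneSpectrum (𝓞 K)) (a : Kˣ) :
    Ev v (a : K) ↔ Even (Multiplicative.toAdd (v.valuationOfNeZero a)) := by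
  constructor
  · rintro ⟨y, hy⟩
    have hy0 : y ≠ 0 := by
      rintro rfl
      rw [map_zero, zero_pow two_ne_zero] at hy
      exact a.ne_zero ((map_eq_zero _).1 hy)
    have h1 := v.valuationOfNeZero_eq a
    have h2 := v.valuationOfNeZero_eq (Units.mk0 y hy0)
    rw [hy, ← Units.val_mk0 hy0, ← h2] at h1
    have h3 : v.valuationOfNeZero a = (v.valuationOfNeZero (Units.mk0 y hy0)) ^ 2 := by
      exact_mod_cast h1
    rw [h3, toAdd_pow, nsmul_eq_mul]
    exact even_two.mul_right _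
  · rintro ⟨r, hr⟩
    obtain ⟨π, hπ⟩ := v.valuation_exists_uniformizer K
    refine ⟨π ^ (-r), ?_⟩
    have h1 := v.valuationOfNeZero_eq a
    rw [← h1, map_zpow₀, hπ]
    have h2 : v.valuationOfNeZero a = Multiplicative.ofAdd (r + r) := by
      rw [← hr]
      rfl
    rw [h2, ← WithZero.exp_zsmul, ← WithZero.exp_nsmul]
    have h3 : (2 : ℕ) • -r • (-1 : ℤ) = r + r := by
      simp
      ring
    rw [h3]
    rfl

lemma ev_int (v : HeightOneSpectrum (𝓞 K)) {r : 𝓞 K} (hr : r ≠ 0) :
    Ev v (algebraMap (𝓞 K) K r) ↔ Even (cnt v (Ideal.span {r})) := by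
  have hr' : algebraMap (𝓞 K) K r ≠ 0 := by simpa using hr
  have h1 := ev_u v (Units.mk0 _ hr')
  rw [Units.val_mk0, MW.val_int v r hr (Units.mk0 _ hr') rfl, even_neg] at h1
  rw [h1]
  exact_mod_cast Iff.rfl

lemma ev_mul (v : HeightOneSpectrum (𝓞 K)) {x y : K} (hx : Ev v x) (hy : Ev v y) :
    Ev v (x * y) := by
  obtain ⟨a, ha⟩ := hx
  obtain ⟨b, hb⟩ := hy
  exact ⟨a * b, by rw [map_mul, map_mul, ha, hb, mul_pow]⟩

lemma ev_sq (v : HeightOneSpectrum (𝓞 K)) (x : K) : Ev v (x ^ 2) := ⟨x, by rw [map_pow]⟩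

lemma exists_int {x : K} {r : 𝓞 K} (h : x ^ 2 = algebraMap (𝓞 K) K r) :
    ∃ y : 𝓞 K, algebraMap (𝓞 K) K y = x := by
  refine IsIntegrallyClosed.exists_algebraMap_eq_of_isIntegral_pow (R := 𝓞 K) (n := 2)
    (by norm_num) ?_
  rw [h]
  exact isIntegral_algebraMap

lemma ideal_sq_inj {I J : Ideal (𝓞 K)} (hI : I ≠ 0) (hJ : J ≠ 0) (h : I ^ 2 = J ^ 2) : I = J := by
  have h1 : UniqueFactorizationMonoid.normalizedFactors I =
      UniqueFactorizationMonoid.normalizedFactors J := by
    ext p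
    have h2 := congrArg (fun s => (UniqueFactorizationMonoid.normalizedFactors s).count p) h
    simp only [UniqueFactorizationMonoid.normalizedFactors_pow, Multiset.count_nsmul] at h2
    omega
  have h2 := associated_iff_eq.mp (UniqueFactorizationMonoid.prod_normalizedFactors hI)
  have h3 := associated_iff_eq.mp (UniqueFactorizationMonoid.prod_normalizedFactors hJ)
  rw [← h2, ← h3, h1]

end base

theorem t_FSEL : S_FSEL := by
  intro F _ _
  obtain ⟨T, hT0, hT⟩ := MW.sel_finite (K := F) ∅ Set.finite_empty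
  refine ⟨T.card, fun A hA hA2 => ?_⟩
  have h1 : ∀ x ∈ A, ∃ t ∈ T, ∃ b : F, b ≠ 0 ∧ x = t * b ^ 2 := by
    intro x hx
    obtain ⟨hx0, hx1⟩ := hA x hx
    exact hT (Units.mk0 x hx0) fun v _ => (ev_u v _).1 (hx1 v)
  choose! t ht b hb hxb using h1
  refine Finset.card_le_card_of_injOn t ht ?_
  intro x hx y hy hxy
  by_contra hne
  apply hA2 x hx y hy hne
  refine ⟨t x * b x * b y, ?_⟩
  have e1 := hxb x hx
  have e2 := hxb y hy
  have hxy' : t y = t x := hxy.symm
  rw [hxy'] at e2
  calc x * y = (t x * b x ^ 2) * (t x * b y ^ 2) := by rw [← e1, ← e2]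
    _ = _ := by ring

end Pool.Agent.L0h88.SP
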