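import Pool.Agent.L0h88.SP.Base

/-!
# Project SP: CLB
-/

set_option autoImplicit false
set_option linter.all false

open Polynomial IsDedekindDomain NumberField
open scoped Classical nonZeroDivisors

namespace Pool.Agent.L0h88.SP

open Pool.Agent.N874.PP (Ev)
open Pool.Agent.H437R2.Man
open Pool.Agent.L0h94.SP

section clb
variable {L : Type} [Field L] [NumberField L]

/-- product of the primes -/
noncomputable def IE (E : Finset (HeightOneSpectrum (𝓞 L))) : (Ideal (𝓞 L))⁰ :=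
  ⟨∏ v ∈ E, v.asIdeal, mem_nonZeroDivisors_iff_ne_zero.mpr
    (Finset.prod_ne_zero_iff.mpr fun v _ => v.ne_bot)⟩

/-- squaring in the class group -/
noncomputable def sq2 (L : Type) [Field L] [NumberField L] :
    ClassGroup (𝓞 L) →* ClassGroup (𝓞 L) := powMonoidHom 2

lemma ker_card : (Nat.card (sq2 L).ker) = (sq2 L).range.index := by
  have h1 := Subgroup.card_mul_index (sq2 L).ker
  rw [Subgroup.index_ker] at h1
  have h2 := Subgroup.card_mul_index (sq2 L).range
  have h3 : 0 < Nat.card (sq2 L).range := Nat.card_pos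
  have h4 : Nat.card (sq2 L).range * (sq2 L).range.index =
      Nat.card (sq2 L).range * Nat.card (sq2 L).ker := by
    rw [h2, ← h1, mul_comm]
  exact (Nat.eq_of_mul_eq_mul_left h3 h4).symm

/-- the classes of the products modulo squares -/
noncomputable def clq (E : Finset (HeightOneSpectrum (𝓞 L))) : ClassGroup (𝓞 L) ⧸ (sq2 L).range :=
  QuotientGroup.mk (ClassGroup.mk0 (IE E))

lemma big_fiber (Y : Finset (HeightOneSpectrum (𝓞 L))) :
    ∃ q : ClassGroup (𝓞 L) ⧸ (sq2 L).range,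
      2 ^ Y.card ≤ Nat.card (sq2 L).ker * (Y.powerset.filter fun E => clq E = q).card := by
  have hfin : Finite (ClassGroup (𝓞 L) ⧸ (sq2 L).range) := inferInstance
  have := Fintype.ofFinite (ClassGroup (𝓞 L) ⧸ (sq2 L).range)
  have h1 : ∑ q : ClassGroup (𝓞 L) ⧸ (sq2 L).range, 2 ^ Y.card ≤
      ∑ q : ClassGroup (𝓞 L) ⧸ (sq2 L).range,
        Nat.card (sq2 L).ker * (Y.powerset.filter fun E => clq E = q).card := by
    rw [Finset.sum_const, ← Finset.mul_sum, ← Finset.card_eq_sum_card_fiberwise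
      (fun _ _ => Finset.mem_univ _), Finset.card_powerset, ker_card, Subgroup.index,
      Nat.card_eq_fintype_card, smul_eq_mul, Finset.card_univ]
  obtain ⟨q, -, hq⟩ := Finset.exists_le_of_sum_le Finset.univ_nonempty h1
  exact ⟨q, hq⟩

lemma span_ne {r : 𝓞 L} (hr : r ≠ 0) : (Ideal.span {r} : Ideal (𝓞 L)) ≠ 0 := by
  rw [Ideal.zero_eq_bot, Ne, Ideal.span_singleton_eq_bot]
  exact hr

lemma exists_r {E E0 : Finset (HeightOneSpectrum (𝓞 L))} (h : clq E = clq E0) :
    ∃ r : 𝓞 L, r ≠ 0 ∧ ∀ v : HeightOneSpectrum (𝓞 L),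
      Even (cnt v (Ideal.span {r}) + (if v ∈ E then 1 else 0) + (if v ∈ E0 then 1 else 0)) := by
  unfold clq at h
  rw [QuotientGroup.eq] at h
  obtain ⟨c, hc⟩ := h
  have hc' : c ^ 2 = (ClassGroup.mk0 (IE E))⁻¹ * ClassGroup.mk0 (IE E0) := hc
  obtain ⟨J, hJ⟩ := ClassGroup.mk0_surjective (ClassGroup.mk0 (IE E) * c)
  have h1 : ClassGroup.mk0 (J ^ 2) = ClassGroup.mk0 (IE E * IE E0) := by
    rw [map_pow, map_mul, hJ, mul_pow, hc', sq]
    group
  obtain ⟨x, y, hx, hy, hxy⟩ := ClassGroup.mk0_eq_mk0_iff.mp h1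
  refine ⟨x * y, mul_ne_zero hx hy, fun v => ?_⟩
  have hJ0 : (J : Ideal (𝓞 L)) ≠ 0 := nonZeroDivisors.ne_zero J.2
  have hE0 : ∀ E : Finset (HeightOneSpectrum (𝓞 L)), ((IE E : (Ideal (𝓞 L))⁰) : Ideal (𝓞 L)) ≠ 0 :=
    fun E => nonZeroDivisors.ne_zero (IE E).2
  have h2 := congrArg (cnt v) hxy
  have hp : ∀ E : Finset (HeightOneSpectrum (𝓞 L)),
      cnt v ((IE E : (Ideal (𝓞 L))⁰) : Ideal (𝓞 L)) = if v ∈ E then 1 else 0 :=
    fun E => cnt_prod v E
  rw [cnt_mul v (span_ne hx) (by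
      rw [SubmonoidClass.coe_pow]
      exact pow_ne_zero 2 hJ0), cnt_mul v (span_ne hy) (by
      rw [Submonoid.coe_mul]
      exact mul_ne_zero (hE0 _) (hE0 _)), SubmonoidClass.coe_pow, Submonoid.coe_mul, cnt_pow,
    cnt_mul v (hE0 _) (hE0 _), hp, hp] at h2
  rw [← Ideal.span_singleton_mul_span_singleton, cnt_mul v (span_ne hx) (span_ne hy)]
  rw [Nat.even_iff]
  omega

lemma exists_b {c : ClassGroup (𝓞 L)} (h : c ^ 2 = 1) :
    ∃ b : 𝓞 L, b ≠ 0 ∧ ∃ J : (Ideal (𝓞 L))⁰, ClassGroup.mk0 J = c ∧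
      (J : Ideal (𝓞 L)) ^ 2 = Ideal.span {b} := by
  obtain ⟨J, hJ⟩ := ClassGroup.mk0_surjective c
  have h1 : ClassGroup.mk0 (J ^ 2) = 1 := by
    rw [map_pow, hJ, h]
  rw [ClassGroup.mk0_eq_one_iff] at h1
  obtain ⟨b, hb⟩ := h1
  have hb' : (J : Ideal (𝓞 L)) ^ 2 = Ideal.span {b} := hb
  refine ⟨b, ?_, J, hJ, hb'⟩
  rintro rfl
  rw [Ideal.span_singleton_eq_bot.mpr rfl] at hb'
  exact pow_ne_zero 2 (nonZeroDivisors.ne_zero J.2) hb'

end clb

theorem t_CLB : S_CLB := by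
  intro L _ _ Y
  obtain ⟨q, hq⟩ := big_fiber Y
  set FF := Y.powerset.filter fun E => clq E = q with hFF
  have hpos : 0 < FF.card := by
    rcases Nat.eq_zero_or_pos FF.card with h | h
    · rw [h, mul_zero] at hq
      exact absurd hq (not_le.mpr (by positivity))
    · exact h
  obtain ⟨E0, hE0⟩ := Finset.card_pos.mp hpos
  have hE0' : clq E0 = q := (Finset.mem_filter.mp hE0).2
  have h1 : ∀ E ∈ FF, ∃ r : 𝓞 L, r ≠ 0 ∧ ∀ v : HeightOneSpectrum (𝓞 L),
      Even (cnt v (Ideal.span {r}) + (if v ∈ E then 1 else 0) + (if v ∈ E0 then 1 else 0)) := by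
    intro E hE
    exact exists_r ((Finset.mem_filter.mp hE).2.trans hE0'.symm)
  choose! r hr0 hr using h1
  have hfin : Finite (sq2 L).ker := inferInstance
  have := Fintype.ofFinite (sq2 L).ker
  have h2 : ∀ c : (sq2 L).ker, ∃ b : 𝓞 L, b ≠ 0 ∧ ∃ J : (Ideal (𝓞 L))⁰,
      ClassGroup.mk0 J = c ∧ (J : Ideal (𝓞 L)) ^ 2 = Ideal.span {b} := fun c => exists_b c.2
  choose b hb0 J hJ hJb using h2
  let g : Finset (HeightOneSpectrum (𝓞 L)) × (sq2 L).ker → L := fun p =>
    algebraMap (𝓞 L) L (r p.1 * b p.2)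
  have hg0 : ∀ p ∈ FF ×ˢ (Finset.univ : Finset (sq2 L).ker), g p ≠ 0 := by
    rintro ⟨E, c⟩ hp
    have hE := (Finset.mem_product.mp hp).1
    simpa [g] using ⟨hr0 E hE, hb0 c⟩
  have hJ0 : ∀ c, ((J c : (Ideal (𝓞 L))⁰) : Ideal (𝓞 L)) ≠ 0 :=
    fun c => nonZeroDivisors.ne_zero (J c).2
  have hcb : ∀ v : HeightOneSpectrum (𝓞 L), ∀ c, cnt v (Ideal.span {b c}) = 2 * cnt v (J c) := by
    intro v c
    rw [← hJb, cnt_pow]
  have key : ∀ p ∈ FF ×ˢ (Finset.univ : Finset (sq2 L).ker),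
      ∀ p' ∈ FF ×ˢ (Finset.univ : Finset (sq2 L).ker), IsSquare (g p * g p') → p = p' := by
    rintro ⟨E, c⟩ hp ⟨E', c'⟩ hp' hsq
    have hE : E ∈ FF := (Finset.mem_product.mp hp).1
    have hE' : E' ∈ FF := (Finset.mem_product.mp hp').1
    obtain ⟨z, hz⟩ := hsq
    have hz2 : z ^ 2 = algebraMap (𝓞 L) L ((r E * b c) * (r E' * b c')) := by
      rw [map_mul, sq]
      exact hz.symm
    obtain ⟨z0, rfl⟩ := exists_int hz2
    have hz3 : z0 ^ 2 = (r E * b c) * (r E' * b c') := by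
      apply IsFractionRing.injective (𝓞 L) L
      rw [map_pow]
      exact hz2
    have hrE := hr0 E hE
    have hrE' := hr0 E' hE'
    have hbc := hb0 c
    have hbc' := hb0 c'
    have hEE : E = E' := by
      ext v
      have h3 := congrArg (fun x : 𝓞 L => cnt v (Ideal.span {x})) hz3
      simp only [← Ideal.span_singleton_pow, ← Ideal.span_singleton_mul_span_singleton] at h3
      rw [cnt_pow, cnt_mul v (mul_ne_zero (span_ne hrE) (span_ne hbc))
        (mul_ne_zero (span_ne hrE') (span_ne hbc')), cnt_mul v (span_ne hrE) (span_ne hbc),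
        cnt_mul v (span_ne hrE') (span_ne hbc'), hcb, hcb] at h3
      have h4 := hr E hE v
      have h5 := hr E' hE' v
      rw [Nat.even_iff] at h4 h5
      by_cases h6 : v ∈ E <;> by_cases h7 : v ∈ E' <;> simp only [h6, h7, if_true, if_false] at h4 h5 ⊢ <;>
        omega
    subst hEE
    have h3 : IsSquare (algebraMap (𝓞 L) L (b c * b c')) := by
      refine ⟨algebraMap (𝓞 L) L z0 / algebraMap (𝓞 L) L (r E), ?_⟩
      have h4 : algebraMap (𝓞 L) L (r E) ≠ 0 := by simpa using hrE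
      rw [div_mul_div_comm, eq_div_iff (mul_ne_zero h4 h4), ← map_mul, ← map_mul, ← map_mul]
      congr 1
      rw [← sq z0, hz3]
      ring
    obtain ⟨w, hw⟩ := h3
    obtain ⟨w0, rfl⟩ := exists_int (x := w) (r := b c * b c') (by rw [sq]; exact hw.symm)
    have h4 : b c * b c' = w0 ^ 2 := by
      apply IsFractionRing.injective (𝓞 L) L
      rw [map_pow, sq]
      exact hw
    have hw0 : w0 ≠ 0 := by
      rintro rfl
      rw [zero_pow two_ne_zero] at h4
      exact mul_ne_zero hbc hbc' h4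
    have h5 : ((J c : Ideal (𝓞 L)) * (J c' : Ideal (𝓞 L))) = Ideal.span {w0} := by
      apply ideal_sq_inj (mul_ne_zero (hJ0 c) (hJ0 c')) (span_ne hw0)
      rw [mul_pow, hJb, hJb, Ideal.span_singleton_mul_span_singleton, h4, Ideal.span_singleton_pow]
    have h6 : ClassGroup.mk0 (J c * J c') = 1 := by
      rw [ClassGroup.mk0_eq_one_iff]
      exact ⟨w0, h5⟩
    rw [map_mul, hJ, hJ] at h6
    have h7 : (c' : ClassGroup (𝓞 L)) * c' = 1 := by
      have := c'.2
      rw [← sq]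
      exact this
    have h8 : c = c' := by
      apply Subtype.ext
      exact mul_right_cancel (h6.trans h7.symm)
    rw [h8]
  refine ⟨(FF ×ˢ (Finset.univ : Finset (sq2 L).ker)).image g, ?_, ?_, ?_⟩
  · rw [Finset.card_image_of_injOn, Finset.card_product, Finset.card_univ,
      ← Nat.card_eq_fintype_card, mul_comm]
    · exact hq
    · intro p hp p' hp' hpp
      refine key p hp p' hp' ⟨g p, ?_⟩
      have : g p = g p' := hpp
      rw [← this]
  · intro x hx
    obtain ⟨p, hp, rfl⟩ := Finset.mem_image.mp hx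
    refine ⟨hg0 p hp, fun v hv => ?_⟩
    obtain ⟨E, c⟩ := p
    have hE : E ∈ FF := (Finset.mem_product.mp hp).1
    have hEY : E ⊆ Y := Finset.mem_powerset.mp (Finset.mem_filter.mp hE).1
    have hE0Y : E0 ⊆ Y := Finset.mem_powerset.mp (Finset.mem_filter.mp hE0).1
    refine (ev_int v (mul_ne_zero (hr0 E hE) (hb0 c))).2 ?_
    rw [← Ideal.span_singleton_mul_span_singleton, cnt_mul v (span_ne (hr0 E hE)) (span_ne (hb0 c)),
      hcb]
    have h4 := hr E hE v
    rw [if_neg (fun h => hv (hEY h)), if_neg (fun h => hv (hE0Y h)), add_zero, add_zero] at h4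
    exact h4.add (even_two.mul_right _)
  · intro x hx y hy hxy hsq
    obtain ⟨p, hp, rfl⟩ := Finset.mem_image.mp hx
    obtain ⟨p', hp', rfl⟩ := Finset.mem_image.mp hy
    exact hxy (by rw [key p hp p' hp' hsq])

end Pool.Agent.L0h88.SP
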