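import Pool.Agent.L0h88.SP.Base

/-!
# Project SP: LOW
-/

set_option autoImplicit false
set_option linter.all false

open Polynomial IsDedekindDomain NumberField
open scoped Classical nonZeroDivisors

namespace Pool.Agent.L0h88.SP

open Pool.Agent.N874.PP (Ev)
open Pool.Agent.H437R2.Man
open Pool.Agent.L0h94.SP

section low
variable {L : Type} [Field L] [NumberField L]

lemma span_ne' {r : 𝓞 L} (hr : r ≠ 0) : (Ideal.span {r} : Ideal (𝓞 L)) ≠ 0 := by
  rw [Ideal.zero_eq_bot, Ne, Ideal.span_singleton_eq_bot]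
  exact hr

/-- the factorization -/
lemma half2 {I : Ideal (𝓞 L)} (hI : I ≠ 0)
    (hev : ∀ v : HeightOneSpectrum (𝓞 L), (2 : 𝓞 L) ∈ v.asIdeal → Even (cnt v I)) :
    ∃ 𝔞 𝔟 : Ideal (𝓞 L), 𝔞 ≠ 0 ∧ 𝔟 ≠ 0 ∧ I = 𝔞 ^ 2 * 𝔟 ∧
      ∀ v : HeightOneSpectrum (𝓞 L), (2 : 𝓞 L) ∈ v.asIdeal → ¬ 𝔟 ≤ v.asIdeal := by
  obtain ⟨t, d, hs, hd⟩ := MW.multiset_half (UniqueFactorizationMonoid.normalizedFactors I)
  have h2 : (UniqueFactorizationMonoid.normalizedFactors I).prod = I :=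
    associated_iff_eq.mp (UniqueFactorizationMonoid.prod_normalizedFactors hI)
  have h3 : I = t.prod ^ 2 * d.prod := by
    conv_lhs => rw [← h2, hs]
    rw [Multiset.prod_add, Multiset.prod_add]
    ring
  refine ⟨t.prod, d.prod, ?_, ?_, h3, ?_⟩
  · intro h0
    rw [h0, zero_pow two_ne_zero, zero_mul] at h3
    exact hI h3
  · intro h0
    rw [h0, mul_zero] at h3
    exact hI h3
  · intro v hv hle
    rw [v.isPrime.multiset_prod_le] at hle
    obtain ⟨p, hp, hpv⟩ := hle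
    have hpI : p ∈ UniqueFactorizationMonoid.normalizedFactors I := by
      rw [hs]; exact Multiset.mem_add.mpr (Or.inr hp)
    have hpp : Prime p := UniqueFactorizationMonoid.prime_of_normalized_factor p hpI
    have hmax : p.IsMaximal := (Ideal.isPrime_of_prime hpp).isMaximal hpp.ne_zero
    have hpe : p = v.asIdeal := hmax.eq_of_le v.isPrime.ne_top hpv
    have h1 := hev v hv
    unfold cnt at h1
    rw [← hpe, hs, Multiset.count_add, Multiset.count_add,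
      Multiset.count_eq_one_of_mem hd hp] at h1
    rw [Nat.even_iff] at h1
    omega

/-- the unit representative -/
lemma urep_int {x : 𝓞 L} (hx : x ≠ 0)
    (hev : ∀ v : HeightOneSpectrum (𝓞 L), (2 : 𝓞 L) ∈ v.asIdeal → Ev v (algebraMap (𝓞 L) L x)) :
    ∃ (s m u : 𝓞 L), s ≠ 0 ∧ m ≠ 0 ∧ u * s ^ 2 = x * m ^ 2 ∧
      ∀ v : HeightOneSpectrum (𝓞 L), (2 : 𝓞 L) ∈ v.asIdeal → u ∉ v.asIdeal := by
  obtain ⟨𝔞, 𝔟, ha, hb, hx2, hb2⟩ := half2 (span_ne' hx) fun v hv => (ev_int v hx).1 (hev v hv)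
  have h20 : (Ideal.span {(2 : 𝓞 L)} : Ideal (𝓞 L)) ≠ 0 := span_ne' two_ne_zero
  obtain ⟨s, hs⟩ := IsDedekindDomain.exists_sup_span_eq (I := Ideal.span {(2 : 𝓞 L)} * 𝔞) (J := 𝔞)
    Ideal.mul_le_right (mul_ne_zero h20 ha)
  have hs1 : Ideal.span {s} ≤ 𝔞 := by
    rw [← hs]
    exact le_sup_right
  obtain ⟨𝔠, hc⟩ := Ideal.dvd_iff_le.mpr hs1
  have h3 : Ideal.span {(2 : 𝓞 L)} ⊔ 𝔠 = ⊤ := by
    have h4 : 𝔞 * (Ideal.span {(2 : 𝓞 L)} ⊔ 𝔠) = 𝔞 * ⊤ := by
      rw [Ideal.mul_sup, ← hc, mul_comm, hs, Ideal.mul_top]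
    exact mul_left_cancel₀ ha h4
  have hcop : IsCoprime (Ideal.span {(2 : 𝓞 L)}) (𝔠 ^ 2) := by
    apply IsCoprime.pow_right
    rw [Ideal.isCoprime_iff_sup_eq]
    exact h3
  obtain ⟨i, hi, m, hm, him⟩ := Ideal.isCoprime_iff_exists.mp hcop
  have hmv : ∀ v : HeightOneSpectrum (𝓞 L), (2 : 𝓞 L) ∈ v.asIdeal → m ∉ v.asIdeal := by
    intro v hv hmv
    have hiv : i ∈ v.asIdeal := by
      have : Ideal.span {(2 : 𝓞 L)} ≤ v.asIdeal := by
        rw [Ideal.span_singleton_le_iff_mem]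
        exact hv
      exact this hi
    exact v.isPrime.ne_top ((Ideal.eq_top_iff_one _).2 (him ▸ Ideal.add_mem _ hiv hmv))
  obtain ⟨v2, hv2⟩ : ∃ v : HeightOneSpectrum (𝓞 L), (2 : 𝓞 L) ∈ v.asIdeal := by
    have h5 : ¬ IsUnit (2 : 𝓞 L) := by
      intro hu
      have h6 : IsUnit ((algebraMap ℤ (𝓞 L)) 2) := by simpa using hu
      have h7 : IsUnit (2 : ℤ) := by
        have h8 := h6.map (Algebra.norm ℤ)
        rw [Algebra.norm_algebraMap] at h8
        rw [isUnit_pow_iff] at h8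
        · exact h8
        · exact Module.finrank_pos.ne'
      revert h7
      rw [Int.isUnit_iff]
      norm_num
    obtain ⟨M, hM, h2M⟩ := exists_max_ideal_of_mem_nonunits h5
    refine ⟨⟨M, hM.isPrime, ?_⟩, h2M⟩
    rintro rfl
    exact two_ne_zero ((Ideal.mem_bot).1 h2M)
  have hm0 : m ≠ 0 := by
    rintro rfl
    exact hmv v2 hv2 (Ideal.zero_mem _)
  have hs0 : s ≠ 0 := by
    rintro rfl
    rw [Ideal.span_singleton_eq_bot.mpr rfl, sup_bot_eq] at hs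
    have h4 : Ideal.span {(2 : 𝓞 L)} * 𝔞 = 1 * 𝔞 := by rw [hs, one_mul]
    have h5 := mul_right_cancel₀ ha h4
    have h6 : (1 : 𝓞 L) ∈ v2.asIdeal := by
      have h7 : Ideal.span {(2 : 𝓞 L)} ≤ v2.asIdeal := by
        rw [Ideal.span_singleton_le_iff_mem]
        exact hv2
      apply h7
      rw [h5, Ideal.one_eq_top]
      trivial
    exact v2.isPrime.ne_top ((Ideal.eq_top_iff_one _).2 h6)
  have hmx : m * x ∈ Ideal.span {s ^ 2} := by
    have h4 : m * x ∈ 𝔠 ^ 2 * (𝔞 ^ 2 * 𝔟) := by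
      apply Ideal.mul_mem_mul hm
      rw [← hx2]
      exact Ideal.mem_span_singleton_self x
    have h5 : 𝔠 ^ 2 * (𝔞 ^ 2 * 𝔟) = Ideal.span {s ^ 2} * 𝔟 := by
      rw [← Ideal.span_singleton_pow, hc]
      ring
    rw [h5] at h4
    exact Ideal.mul_le_left h4
  obtain ⟨w, hw⟩ := Ideal.mem_span_singleton.mp hmx
  refine ⟨s, m, m * w, hs0, hm0, ?_, ?_⟩
  · calc m * w * s ^ 2 = m * (s ^ 2 * w) := by ring
      _ = m * (m * x) := by rw [hw]
      _ = _ := by ring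
  · intro v hv huv
    rcases v.isPrime.mem_or_mem huv with h4 | h4
    · exact hmv v hv h4
    · have h5 : Ideal.span {m} * 𝔟 = 𝔠 ^ 2 * Ideal.span {w} := by
        have h6 : Ideal.span {m * x} = Ideal.span {s ^ 2 * w} := by rw [hw]
        rw [← Ideal.span_singleton_mul_span_singleton, ← Ideal.span_singleton_mul_span_singleton,
          hx2, ← Ideal.span_singleton_pow, hc] at h6
        have h7 : 𝔞 ^ 2 * (Ideal.span {m} * 𝔟) = 𝔞 ^ 2 * (𝔠 ^ 2 * Ideal.span {w}) := by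
          calc 𝔞 ^ 2 * (Ideal.span {m} * 𝔟) = Ideal.span {m} * (𝔞 ^ 2 * 𝔟) := by ring
            _ = (𝔞 * 𝔠) ^ 2 * Ideal.span {w} := h6
            _ = _ := by ring
        exact mul_left_cancel₀ (pow_ne_zero 2 ha) h7
      have h6 : Ideal.span {m} * 𝔟 ≤ v.asIdeal := by
        rw [h5]
        refine Ideal.mul_le_right.trans ?_
        rw [Ideal.span_singleton_le_iff_mem]
        exact h4
      rcases (v.isPrime.mul_le).1 h6 with h7 | h7
      · rw [Ideal.span_singleton_le_iff_mem] at h7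
        exact hmv v hv h7
      · exact hb2 v hv h7

/-- the unit representative, general elements -/
lemma urep {x : L} (hx : x ≠ 0)
    (hev : ∀ v : HeightOneSpectrum (𝓞 L), (2 : 𝓞 L) ∈ v.asIdeal → Ev v x) :
    ∃ (t : L) (u : 𝓞 L), t ≠ 0 ∧ algebraMap (𝓞 L) L u = x * t ^ 2 ∧
      ∀ v : HeightOneSpectrum (𝓞 L), (2 : 𝓞 L) ∈ v.asIdeal → u ∉ v.asIdeal := by
  obtain ⟨p, q, hq, hpq⟩ := IsFractionRing.div_surjective (A := 𝓞 L) x
  have hq0 : q ≠ 0 := nonZeroDivisors.ne_zero hq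
  have hqL : algebraMap (𝓞 L) L q ≠ 0 := by simpa using hq0
  have hp0 : p ≠ 0 := by
    rintro rfl
    rw [map_zero, zero_div] at hpq
    exact hx hpq.symm
  have h1 : algebraMap (𝓞 L) L (p * q) = x * algebraMap (𝓞 L) L q ^ 2 := by
    rw [← hpq, map_mul]
    field_simp
  obtain ⟨s, m, u, hs, hm, hu, huv⟩ := urep_int (mul_ne_zero hp0 hq0) (fun v hv => by
    rw [h1]
    exact ev_mul v (hev v hv) (ev_sq v _))
  have hsL : algebraMap (𝓞 L) L s ≠ 0 := by simpa using hs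
  have hmL : algebraMap (𝓞 L) L m ≠ 0 := by simpa using hm
  refine ⟨algebraMap (𝓞 L) L q * algebraMap (𝓞 L) L m / algebraMap (𝓞 L) L s, u,
    div_ne_zero (mul_ne_zero hqL hmL) hsL, ?_, huv⟩
  have h2 := congrArg (algebraMap (𝓞 L) L) hu
  rw [map_mul, map_mul, map_pow, map_pow, h1] at h2
  rw [div_pow, mul_div_assoc', eq_div_iff (pow_ne_zero 2 hsL), h2]
  ring

lemma near2_mul {x y t t' : L} {u u' : 𝓞 L} (hx : x ≠ 0) (hy : y ≠ 0) (ht : t ≠ 0) (ht' : t' ≠ 0)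
    (hu : algebraMap (𝓞 L) L u = x * t ^ 2) (hu' : algebraMap (𝓞 L) L u' = y * t' ^ 2)
    (huv : ∀ v : HeightOneSpectrum (𝓞 L), (2 : 𝓞 L) ∈ v.asIdeal → u ∉ v.asIdeal)
    (huu : u' - u ∈ Ideal.span {(8 : 𝓞 L)}) : Near2 (x * y) := by
  have hu0 : algebraMap (𝓞 L) L u ≠ 0 := by
    rw [hu]
    exact mul_ne_zero hx (pow_ne_zero 2 ht)
  refine ⟨algebraMap (𝓞 L) L u / (t * t'), div_ne_zero hu0 (mul_ne_zero ht ht'), fun v hv => ?_⟩
  have h1 : x * y / (algebraMap (𝓞 L) L u / (t * t')) ^ 2 - 1 =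
      algebraMap (𝓞 L) L (u' - u) / algebraMap (𝓞 L) L u := by
    rw [map_sub, hu', hu]
    field_simp
  have h2 : v.valuation L (algebraMap (𝓞 L) L u) = 1 := by
    rw [HeightOneSpectrum.valuation_of_algebraMap]
    exact (HeightOneSpectrum.intValuation_eq_one_iff).2 (huv v hv)
  rw [h1, map_div₀, h2, div_one]
  obtain ⟨c, hc⟩ := Ideal.mem_span_singleton.mp huu
  rw [hc, map_mul, map_mul, map_ofNat]
  exact mul_le_of_le_one_right' (v.valuation_le_one c)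

lemma card_Q : Nat.card (𝓞 L ⧸ Ideal.span {(8 : 𝓞 L)}) = 8 ^ Module.finrank ℚ L := by
  have h1 := Ideal.absNorm_span_singleton (8 : 𝓞 L)
  have h2 : (8 : 𝓞 L) = algebraMap ℤ (𝓞 L) 8 := by simp
  have h3 : Algebra.norm ℤ (8 : 𝓞 L) = 8 ^ Module.finrank ℚ L := by
    conv_lhs => rw [h2]
    rw [Algebra.norm_algebraMap, RingOfIntegers.rank]
  rw [h3, Int.natAbs_pow] at h1
  rw [← Submodule.cardQuot_apply, ← Ideal.absNorm_apply, h1]
  rfl

lemma card_R : Nat.card (L →+* ℝ) ≤ Module.finrank ℚ L := by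
  rw [← NumberField.Embeddings.card L ℂ, ← Nat.card_eq_fintype_card]
  refine Nat.card_le_card_of_injective (fun σ : L →+* ℝ => Complex.ofRealHom.comp σ) ?_
  intro σ τ h
  ext x
  have h1 := congrArg (fun f : L →+* ℂ => f x) h
  simpa using h1

end low

theorem t_LOW : S_FSEL → S_CLB → S_LOW := by
  intro _ hCLB F _ _ n
  obtain ⟨T, hT0, hT⟩ := MW.sel_finite (K := F) ∅ Set.finite_empty
  set d : ℕ := Module.finrank ℚ F * n with hd
  refine ⟨T.card * (8 ^ d * 2 ^ d), fun L _ _ _ hn Y hY2 hN => ?_⟩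
  obtain ⟨A, hA, hA1, hA2⟩ := hCLB L Y
  have hrank : Module.finrank ℚ L = d := by
    rw [hd, ← hn]
    exact (Module.finrank_mul_finrank ℚ F L).symm
  have hfd : FiniteDimensional F L := Module.Finite.of_restrictScalars_finite ℚ F L
  have h1 : ∀ x ∈ A, ∃ t ∈ T, ∃ b : F, b ≠ 0 ∧ Algebra.norm F x = t * b ^ 2 := by
    intro x hx
    have h0 := (hA1 x hx).1
    have h2 : Algebra.norm F x ≠ 0 := Algebra.norm_ne_zero_iff.mpr h0
    exact hT (Units.mk0 _ h2) fun v _ => (ev_u v _).1 (hN x h0 (hA1 x hx).2 v)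
  choose! τ hτ b hb hxb using h1
  have h2 : ∀ x ∈ A, ∃ (t : L) (u : 𝓞 L), t ≠ 0 ∧ algebraMap (𝓞 L) L u = x * t ^ 2 ∧
      ∀ v : HeightOneSpectrum (𝓞 L), (2 : 𝓞 L) ∈ v.asIdeal → u ∉ v.asIdeal := fun x hx =>
    urep (hA1 x hx).1 fun v hv => (hA1 x hx).2 v fun h => hY2 v h hv
  choose! s u hs hu huv using h2
  have hQ := card_Q (L := L)
  have hR := card_R (L := L)
  rw [hrank] at hQ hR
  have hQf : Finite (𝓞 L ⧸ Ideal.span {(8 : 𝓞 L)}) := by
    apply Nat.finite_of_card_ne_zero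
    rw [hQ]
    positivity
  have hRf : Finite (L →+* ℝ) := by
    refine Finite.of_injective (fun σ : L →+* ℝ => (Complex.ofRealHom.comp σ : L →+* ℂ)) ?_
    intro σ τ h
    ext x
    have h1 := congrArg (fun f : L →+* ℂ => f x) h
    simpa using h1
  have := Fintype.ofFinite (𝓞 L ⧸ Ideal.span {(8 : 𝓞 L)})
  have := Fintype.ofFinite (L →+* ℝ)
  let tgt : Finset (F × (𝓞 L ⧸ Ideal.span {(8 : 𝓞 L)}) × ((L →+* ℝ) → Bool)) :=
    T ×ˢ (Finset.univ ×ˢ Finset.univ)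
  have htgt : tgt.card ≤ T.card * (8 ^ d * 2 ^ d) := by
    rw [Finset.card_product, Finset.card_product]
    refine Nat.mul_le_mul le_rfl (Nat.mul_le_mul ?_ ?_)
    · rw [Finset.card_univ, ← Nat.card_eq_fintype_card, hQ]
    · rw [Finset.card_univ, Fintype.card_fun, Fintype.card_bool]
      refine Nat.pow_le_pow_right (by norm_num) ?_
      rw [← Nat.card_eq_fintype_card]
      exact hR
  let key : L → F × (𝓞 L ⧸ Ideal.span {(8 : 𝓞 L)}) × ((L →+* ℝ) → Bool) := fun x =>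
    (τ x, Ideal.Quotient.mk _ (u x), fun σ => decide (0 < σ x))
  have hmaps : ∀ x ∈ A, key x ∈ tgt := by
    intro x hx
    exact Finset.mem_product.mpr ⟨hτ x hx, Finset.mem_product.mpr
      ⟨Finset.mem_univ _, Finset.mem_univ _⟩⟩
  have hApos : 0 < A.card := lt_of_lt_of_le (by positivity) hA
  obtain ⟨x1, hx1⟩ := Finset.card_pos.mp hApos
  have hsum : ∑ y ∈ tgt, A.card ≤ ∑ y ∈ tgt, tgt.card * (A.filter fun x => key x = y).card := by
    rw [Finset.sum_const, ← Finset.mul_sum, ← Finset.card_eq_sum_card_fiberwise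
      (fun x hx => hmaps x hx), smul_eq_mul]
  obtain ⟨y, -, hy⟩ := Finset.exists_le_of_sum_le ⟨key x1, hmaps x1 hx1⟩ hsum
  set B := A.filter fun x => key x = y with hB
  have hBpos : 0 < B.card := by
    rcases Nat.eq_zero_or_pos B.card with h | h
    · rw [h, mul_zero] at hy
      omega
    · exact h
  obtain ⟨x0, hx0⟩ := Finset.card_pos.mp hBpos
  have hx0A : x0 ∈ A := (Finset.mem_filter.mp hx0).1
  have hx00 : x0 ≠ 0 := (hA1 x0 hx0A).1
  have hx0y : key x0 = y := (Finset.mem_filter.mp hx0).2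
  refine ⟨B.image (fun x => x0 * x), ?_, ?_, ?_⟩
  · rw [Finset.card_image_of_injective _ (mul_right_injective₀ hx00)]
    exact hA.trans (hy.trans (Nat.mul_le_mul htgt le_rfl))
  · intro z hz
    obtain ⟨x, hx, rfl⟩ := Finset.mem_image.mp hz
    have hxA : x ∈ A := (Finset.mem_filter.mp hx).1
    have hxy : key x0 = key x := hx0y.trans (Finset.mem_filter.mp hx).2.symm
    have hxn : x ≠ 0 := (hA1 x hxA).1
    have k1 : τ x0 = τ x := congrArg Prod.fst hxy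
    have k2 : Ideal.Quotient.mk (Ideal.span {(8 : 𝓞 L)}) (u x0) = Ideal.Quotient.mk _ (u x) :=
      congrArg (fun p => p.2.1) hxy
    have k3 : (fun σ : L →+* ℝ => decide (0 < σ x0)) = fun σ => decide (0 < σ x) :=
      congrArg (fun p => p.2.2) hxy
    refine ⟨mul_ne_zero hx00 hxn, ?_, ?_, ?_, ?_⟩
    · refine ⟨τ x0 * b x0 * b x, ?_⟩
      rw [map_mul, hxb x0 hx0A, hxb x hxA, ← k1]
      ring
    · intro v hv
      exact ev_mul v ((hA1 x0 hx0A).2 v hv) ((hA1 x hxA).2 v hv)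
    · exact near2_mul hx00 hxn (hs x0 hx0A) (hs x hxA) (hu x0 hx0A) (hu x hxA) (huv x0 hx0A)
        (Ideal.Quotient.eq.1 k2.symm)
    · intro σ
      have k4 : decide (0 < σ x0) = decide (0 < σ x) := congrFun k3 σ
      have k5 : (0 < σ x0) ↔ (0 < σ x) := by simpa using k4
      have n0 : σ x0 ≠ 0 := (map_ne_zero σ).2 hx00
      have n1 : σ x ≠ 0 := (map_ne_zero σ).2 hxn
      rw [map_mul]
      rcases lt_or_gt_of_ne n0 with h | h
      · have h' : ¬ 0 < σ x := fun h' => absurd (k5.2 h') (not_lt.mpr h.le)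
        exact mul_pos_of_neg_of_neg h (lt_of_le_of_ne (not_lt.1 h') n1)
      · exact mul_pos h (k5.1 h)
  · intro z hz z' hz' hzz hsq
    obtain ⟨x, hx, rfl⟩ := Finset.mem_image.mp hz
    obtain ⟨x', hx', rfl⟩ := Finset.mem_image.mp hz'
    have hxA : x ∈ A := (Finset.mem_filter.mp hx).1
    have hxA' : x' ∈ A := (Finset.mem_filter.mp hx').1
    refine hA2 x hxA x' hxA' (fun h => hzz (by rw [h])) ?_
    obtain ⟨w, hw⟩ := hsq
    refine ⟨w / x0, ?_⟩
    rw [div_mul_div_comm, ← hw, eq_div_iff (mul_ne_zero hx00 hx00)]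
    ring

end Pool.Agent.L0h88.SP
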